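import Pool.Agent.L5helper97.Cyc.Param

/-!
# MP_ee50b4_pr: Peres' conjecture fails for simple random walks on circulant graphs with any
prescribed numbers of vertices

For every sequence of cycle lengths `N k → ∞` (all integers, the primes, ...) there are symmetric
generating sets `S k` of `ℤ/N k`, not containing `0` for large `k`, such that the walks driven by
the uniform distribution on `S k` are ergodic, have relaxation times at most `4`, mixing times
tending to infinity, and the limit profile `e^{-s}`, hence no cutoff.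

The set `S k` is the union of about `32 log n` random translates of an interval of length about
`√n / (log n)^{1/4}` (they mix slowly: after `t` steps only `(32 log n)^t` translates can be
reached), and of an arithmetic progression that is `(log n)^{1/2}` times smaller; the first step in
the progression makes the walk uniform.

The definitions are in `Pool/Agent/L5helper97/Cyc/Defs.lean`.
-/

open Finset Filter Topology

namespace Pool.Agent.Results.MP_ee50b4_pr.EveryCycleLength

open Pool.Agent.L5helper97.Cyc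

/-- the uniform distribution on the whole cycle (used for the finitely many small lengths) -/
theorem univ_facts (n : ℕ) [NeZero n] :
    Ergodic (unifOn (univ : Finset (ZMod n))) ∧ 0 < trel (unifOn (univ : Finset (ZMod n))) ∧
      trel (unifOn (univ : Finset (ZMod n))) ≤ 4 := by
  have hn := card_pos' (n := n)
  have h1 : (⨆ j : {j : ZMod n // j ≠ 0}, ‖eig (unifOn (univ : Finset (ZMod n))) j‖) ≤ 0 := by
    apply Real.iSup_le _ le_rfl
    rintro ⟨j, hj⟩
    simp only
    rw [eig_eq]
    have h1 : ∑ x, (ZMod.stdAddChar (j * x) : ℂ) = 0 := by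
      have hprim := ZMod.isPrimitive_stdAddChar n hj
      have := AddChar.sum_eq_zero_of_ne_one hprim
      simpa [AddChar.mulShift_apply] using this
    rw [h1]; simp
  have h2 : 1 ≤ gap (unifOn (univ : Finset (ZMod n))) := by unfold gap; linarith
  refine ⟨?_, one_div_pos.mpr (by linarith), ?_⟩
  · intro H a hH
    rw [eq_top_iff]
    intro y _
    have := hH (y + a) (by
      rw [unifOn, if_pos (Finset.mem_univ _), Finset.card_univ, ZMod.card]
      exact (one_div_pos.mpr hn).ne')
    rwa [add_sub_cancel_right] at this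
  · rw [trel, div_le_iff₀ (by linarith)]; linarith

/-- **Peres' conjecture fails along every sequence of cycle lengths.** Let `N k → ∞`. There are
nonempty symmetric sets `S k ⊆ ℤ/N k`, with `0 ∉ S k` for all large `k`, such that the walks driven by the
uniform distributions on `S k` are ergodic, have `T_rel ≤ 4`, satisfy `T_rel / T_mix(1/2) → 0`,
and have no cutoff. In fact for some `T k → ∞` the total variation distances satisfy
`d_k(⌊s T k⌋) → e^{-s}` for every `s ≥ 0`, and `T_mix(ε) / T k → log (1/ε)` for `0 < ε < 1`. -/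
theorem result (N : ℕ → ℕ) [∀ k, NeZero (N k)] (hN : Tendsto N atTop atTop) :
    ∃ (S : ∀ k, Finset (ZMod (N k))) (T : ℕ → ℝ),
      (∀ k, (S k).Nonempty) ∧
      (∀ k, ∀ x ∈ S k, -x ∈ S k) ∧ (∀ᶠ k in atTop, (0 : ZMod (N k)) ∉ S k) ∧
      (∀ k, Ergodic (unifOn (S k))) ∧
      (∀ k, 0 < trel (unifOn (S k)) ∧ trel (unifOn (S k)) ≤ 4) ∧
      Tendsto T atTop atTop ∧
      (∀ s : ℝ, 0 ≤ s →
        Tendsto (fun k => dTV (unifOn (S k)) ⌊s * T k⌋₊) atTop (𝓝 (Real.exp (-s)))) ∧
      (∀ ε : ℝ, 0 < ε → ε < 1 →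
        Tendsto (fun k => (tmix (unifOn (S k)) ε : ℝ) / T k) atTop (𝓝 (Real.log (1 / ε)))) ∧
      Tendsto (fun k => trel (unifOn (S k)) / (tmix (unifOn (S k)) (1 / 2) : ℝ)) atTop (𝓝 0) ∧
      ¬ HasCutoff (fun k => unifOn (S k)) := by
  classical
  let r : ℕ → ℝ := fun k => Real.sqrt (Real.sqrt (Real.log (N k)))
  have hr : Tendsto r atTop atTop := by
    have h1 : Tendsto (fun k => Real.log (N k)) atTop atTop :=
      Real.tendsto_log_atTop.comp (tendsto_natCast_atTop_atTop.comp hN)
    have hs : Tendsto Real.sqrt atTop atTop := Real.tendsto_sqrt_atTop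
    exact hs.comp (hs.comp h1)
  have hexp : ∀ᶠ x : ℝ in atTop, 10 ^ 6 * x ^ 10 ≤ Real.exp (x ^ 4 / 2) := by
    have h1 : Tendsto (fun x : ℝ => x ^ 10 / Real.exp x) atTop (𝓝 0) :=
      Real.tendsto_pow_mul_exp_neg_atTop_nhds_zero 10 |>.congr fun x => by
        rw [Real.exp_neg]; rfl
    filter_upwards [h1.eventually (gt_mem_nhds (show (0 : ℝ) < 1 / 10 ^ 6 by norm_num)),
      eventually_ge_atTop 2] with x hx hx2
    have h2 : x ^ 10 < 1 / 10 ^ 6 * Real.exp x := by
      rwa [div_lt_iff₀ (Real.exp_pos x)] at hx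
    have h3 : Real.exp x ≤ Real.exp (x ^ 4 / 2) := by
      apply Real.exp_le_exp.mpr
      have : (8 : ℝ) ≤ x ^ 3 := by
        calc (8 : ℝ) = 2 ^ 3 := by norm_num
          _ ≤ x ^ 3 := by gcongr
      nlinarith
    linarith
  let good : ℕ → Prop := fun k => 10 ≤ r k ∧ 10 ^ 6 * r k ^ 10 ≤ Real.exp (r k ^ 4 / 2)
  have hgood : ∀ᶠ k in atTop, good k :=
    (hr.eventually_ge_atTop 10).and (hr.eventually hexp)
  have hex : ∀ k, good k → ∃ (S : Finset (ZMod (N k))) (T : ℝ), S.Nonempty ∧
      (∀ x ∈ S, -x ∈ S) ∧ 0 ∉ S ∧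
      Ergodic (unifOn S) ∧ 0 < trel (unifOn S) ∧ trel (unifOn S) ≤ 4 ∧
      32 * r k ^ 2 ≤ T ∧ T ≤ 1225 * r k ^ 2 ∧
      (∀ t : ℕ, (1 - 1 / T) ^ t - (34 * r k ^ 4) ^ t * (2 * t + 1) / Real.exp (r k ^ 4 / 2) ≤
        dTV (unifOn S) t) ∧
      (∀ t : ℕ, 1 ≤ t → dTV (unifOn S) t ≤ (1 - 1 / T) ^ t + (1 / T) ^ t + 1 / r k) := by
    intro k hk
    refine exists_walk_r (N k) (r k) hk.1 ?_ hk.2
    have hNpos : (0 : ℝ) < N k := card_pos'
    have hr0 : 0 < r k := by linarith [hk.1]
    have h1 : 0 < Real.sqrt (Real.log (N k)) := Real.sqrt_pos.mp hr0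
    have h2 : 0 < Real.log (N k) := Real.sqrt_pos.mp h1
    have h3 : r k ^ 4 = Real.log (N k) := by
      have : r k ^ 4 = (r k ^ 2) ^ 2 := by ring
      rw [this, Real.sq_sqrt h1.le, Real.sq_sqrt h2.le]
    rw [h3, Real.exp_log hNpos]
  let S : ∀ k, Finset (ZMod (N k)) := fun k =>
    if h : good k then (hex k h).choose else univ
  let T : ℕ → ℝ := fun k => if h : good k then (hex k h).choose_spec.choose else 1
  have hST : ∀ k, good k → (S k).Nonempty ∧
      (∀ x ∈ S k, -x ∈ S k) ∧ 0 ∉ S k ∧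
      Ergodic (unifOn (S k)) ∧ 0 < trel (unifOn (S k)) ∧ trel (unifOn (S k)) ≤ 4 ∧
      32 * r k ^ 2 ≤ T k ∧ T k ≤ 1225 * r k ^ 2 ∧
      (∀ t : ℕ, (1 - 1 / T k) ^ t - (34 * r k ^ 4) ^ t * (2 * t + 1) / Real.exp (r k ^ 4 / 2) ≤
        dTV (unifOn (S k)) t) ∧
      (∀ t : ℕ, 1 ≤ t → dTV (unifOn (S k)) t ≤ (1 - 1 / T k) ^ t + (1 / T k) ^ t + 1 / r k) := by
    intro k hk
    have e1 : S k = (hex k hk).choose := dif_pos hk
    have e2 : T k = (hex k hk).choose_spec.choose := dif_pos hk
    rw [e1, e2]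
    exact (hex k hk).choose_spec.choose_spec
  have hSb : ∀ k, ¬ good k → S k = univ := fun k hk => dif_neg hk
  have hne : ∀ k, (S k).Nonempty := by
    intro k
    by_cases hk : good k
    · exact (hST k hk).1
    · rw [hSb k hk]; exact Finset.univ_nonempty
  have hT : Tendsto T atTop atTop := by
    have h1 : Tendsto (fun k => 32 * r k ^ 2) atTop atTop :=
      ((tendsto_pow_atTop (by norm_num)).comp hr).const_mul_atTop (by norm_num)
    refine tendsto_atTop_mono' _ ?_ h1
    filter_upwards [hgood] with k hk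
    exact (hST k hk).2.2.2.2.2.2.1
  have hTup : ∀ᶠ k in atTop, T k ≤ 1225 * r k ^ 2 := by
    filter_upwards [hgood] with k hk
    exact (hST k hk).2.2.2.2.2.2.2.1
  have hprof : ∀ s : ℝ, 0 ≤ s →
      Tendsto (fun k => dTV (unifOn (S k)) ⌊s * T k⌋₊) atTop (𝓝 (Real.exp (-s))) := by
    intro s hs
    have hlow : Tendsto (fun k => (1 - 1 / T k) ^ ⌊s * T k⌋₊ -
        (34 * r k ^ 4) ^ ⌊s * T k⌋₊ * (2 * (⌊s * T k⌋₊ : ℝ) + 1) / Real.exp (r k ^ 4 / 2)) atTop
        (𝓝 (Real.exp (-s))) := by
      have := (pow_floor_lim hT hs).sub (err_lim hr s hs (hT.eventually_ge_atTop 0) hTup)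
      simpa using this
    rcases eq_or_lt_of_le hs with hs0 | hs0
    · -- s = 0
      subst hs0
      have hup : ∀ k, dTV (unifOn (S k)) ⌊(0 : ℝ) * T k⌋₊ ≤ 1 := by
        intro k
        rw [zero_mul, Nat.floor_zero]
        apply dTV_le
        intro f hf
        rw [pow_zero, Module.End.one_apply]
        refine (abs_sub _ _).trans ?_
        have := hf 0
        have := av_abs_le hf
        linarith
      rw [neg_zero, Real.exp_zero] at hlow ⊢
      refine tendsto_of_tendsto_of_tendsto_of_le_of_le' hlow tendsto_const_nhds ?_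
        (Eventually.of_forall hup)
      filter_upwards [hgood] with k hk
      exact (hST k hk).2.2.2.2.2.2.2.2.1 _
    · have hrinv : Tendsto (fun k => 1 / r k) atTop (𝓝 0) := by
        simp only [one_div]; exact hr.inv_tendsto_atTop
      have hTinv : Tendsto (fun k => 1 / T k) atTop (𝓝 0) := by
        simp only [one_div]; exact hT.inv_tendsto_atTop
      have hfl : ∀ᶠ k in atTop, 1 ≤ ⌊s * T k⌋₊ := by
        filter_upwards [hT.eventually_ge_atTop (1 / s)] with k hk
        apply Nat.le_floor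
        rw [Nat.cast_one]
        rw [div_le_iff₀ hs0] at hk
        linarith
      have hpow : Tendsto (fun k => (1 / T k) ^ ⌊s * T k⌋₊) atTop (𝓝 0) := by
        refine squeeze_zero' ?_ ?_ hTinv
        · filter_upwards [hT.eventually_ge_atTop 1] with k hk
          positivity
        · filter_upwards [hT.eventually_ge_atTop 1, hfl] with k hk hk2
          exact pow_le_of_le_one (by positivity) (by rw [div_le_one (by linarith)]; exact hk)
            (by omega)
      have hup : Tendsto (fun k => (1 - 1 / T k) ^ ⌊s * T k⌋₊ + (1 / T k) ^ ⌊s * T k⌋₊ + 1 / r k)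
          atTop (𝓝 (Real.exp (-s))) := by
        have := ((pow_floor_lim hT hs).add hpow).add hrinv
        simpa using this
      refine tendsto_of_tendsto_of_tendsto_of_le_of_le' hlow hup ?_ ?_
      · filter_upwards [hgood] with k hk
        exact (hST k hk).2.2.2.2.2.2.2.2.1 _
      · filter_upwards [hgood, hfl] with k hk hk2
        exact (hST k hk).2.2.2.2.2.2.2.2.2 _ hk2
  have hmono : ∀ k, Antitone (fun t => dTV (unifOn (S k)) t) := fun k => dTV_antitone (S k) (hne k)
  have hmix : ∀ ε : ℝ, 0 < ε → ε < 1 →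
      Tendsto (fun k => (tmix (unifOn (S k)) ε : ℝ) / T k) atTop (𝓝 (Real.log (1 / ε))) :=
    fun ε h0 h1 => mixing (d := fun k t => dTV (unifOn (S k)) t) hT hmono hprof h0 h1
  have hratio : ∀ ε : ℝ, 0 < ε → ε < 1 / 2 →
      Tendsto (fun k => (tmix (unifOn (S k)) ε : ℝ) / (tmix (unifOn (S k)) (1 - ε) : ℝ)) atTop
        (𝓝 (Real.log (1 / ε) / Real.log (1 / (1 - ε)))) :=
    fun ε h0 h1 => ratio (d := fun k t => dTV (unifOn (S k)) t) hT hmono hprof h0 (by linarith)
      (by linarith) (by linarith)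
  have htrel : ∀ k, 0 < trel (unifOn (S k)) ∧ trel (unifOn (S k)) ≤ 4 := by
    intro k
    by_cases hk : good k
    · exact ⟨(hST k hk).2.2.2.2.1, (hST k hk).2.2.2.2.2.1⟩
    · rw [hSb k hk]; exact (univ_facts (N k)).2
  refine ⟨S, T, hne, ?_, ?_, ?_, htrel, hT, hprof, hmix, ?_, ?_⟩
  · intro k
    by_cases hk : good k
    · exact (hST k hk).2.1
    · rw [hSb k hk]; intro x _; exact Finset.mem_univ _
  · filter_upwards [hgood] with k hk
    exact (hST k hk).2.2.1
  · intro k
    by_cases hk : good k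
    · exact (hST k hk).2.2.2.1
    · rw [hSb k hk]; exact (univ_facts (N k)).1
  · have h1 : Tendsto (fun k => ((tmix (unifOn (S k)) (1 / 2) : ℝ) / T k) * T k) atTop atTop := by
      refine (hmix (1 / 2) (by norm_num) (by norm_num)).pos_mul_atTop ?_ hT
      apply Real.log_pos
      norm_num
    have h2 : Tendsto (fun k => (tmix (unifOn (S k)) (1 / 2) : ℝ)) atTop atTop := by
      refine h1.congr' ?_
      filter_upwards [hT.eventually_gt_atTop 0] with k hk
      rw [div_mul_cancel₀ _ hk.ne']
    have h3 : Tendsto (fun k => 4 / (tmix (unifOn (S k)) (1 / 2) : ℝ)) atTop (𝓝 0) :=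
      tendsto_const_nhds.div_atTop h2
    refine squeeze_zero (fun k => ?_) (fun k => ?_) h3
    · exact div_nonneg (htrel k).1.le (Nat.cast_nonneg _)
    · have := (htrel k).2
      gcongr
  · intro hcut
    have h1 := hcut (1 / 4) (by norm_num) (by norm_num)
    have h2 := tendsto_nhds_unique h1 (hratio (1 / 4) (by norm_num) (by norm_num))
    have h3 := log_ratio_gt (ε := 1 / 4) (by norm_num) (by norm_num)
    linarith

end Pool.Agent.Results.MP_ee50b4_pr.EveryCycleLength
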